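import Pool.Agent.Q134.IS.Vote

set_option autoImplicit false

/-!
Self correction of the isomorphism problem for finite presentations: computability.
-/

namespace Pool.Agent.Q134.IS

open Pool.Agent.Q324.SC
open Encodable
open Nat.Partrec (Code)
open Nat.Partrec.Code

theorem size_primrec : Primrec size := by
  unfold size
  have h1 : Primrec (fun r : List (ℕ × Bool) => r.length + (r.map fun x => x.1 + 1).sum) := by
    refine padd (by fun_prop) (psum (pmap (by fun_prop) ?_))
    fun_prop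
  have h2 : Primrec (fun P : Pres => (P.2.map fun r => r.length + (r.map fun x => x.1 + 1).sum).sum) := by
    refine psum (pmap (by fun_prop) ?_)
    exact h1.comp Primrec.snd
  have h3 : Primrec (fun P : Pres => P.1 + P.2.length) := by fun_prop
  exact padd h3 h2

/-- arguments of `pad` -/
abbrev Arg := Pres × ℕ × ℕ × ℕ × ℕ × ℕ

theorem letter_primrec : Primrec letter := by
  unfold letter
  fun_prop

theorem dig_primrec : Primrec (fun y : ℕ × ℕ × ℕ => letter (dig (2 * y.1 - 1) y.2.1 y.2.2)) := by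
  refine letter_primrec.comp ?_
  unfold dig
  fun_prop

theorem wd_primrec : Primrec (fun x : Arg × ℕ => wd x.1.2.1 x.1.2.2.2.1 x.1.2.2.2.2.1 x.1.2.2.2.2.2 x.2) := by
  have a1 : Primrec (fun x : (Arg × ℕ) × ℕ => x.1.1) := Primrec.fst.comp Primrec.fst
  have a2 : Primrec (fun x : (Arg × ℕ) × ℕ => x.1.1.2) := Primrec.snd.comp a1
  have aM : Primrec (fun x : (Arg × ℕ) × ℕ => x.1.1.2.1) := Primrec.fst.comp a2
  have a3 : Primrec (fun x : (Arg × ℕ) × ℕ => x.1.1.2.2.2) :=
    Primrec.snd.comp (Primrec.snd.comp a2)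
  have aL : Primrec (fun x : (Arg × ℕ) × ℕ => x.1.1.2.2.2.1) := Primrec.fst.comp a3
  have a4 : Primrec (fun x : (Arg × ℕ) × ℕ => x.1.1.2.2.2.2) := Primrec.snd.comp a3
  have ao : Primrec (fun x : (Arg × ℕ) × ℕ => x.1.1.2.2.2.2.1) := Primrec.fst.comp a4
  have ak : Primrec (fun x : (Arg × ℕ) × ℕ => x.1.1.2.2.2.2.2) := Primrec.snd.comp a4
  have ai : Primrec (fun x : (Arg × ℕ) × ℕ => x.1.2) := Primrec.snd.comp Primrec.fst
  have as : Primrec (fun x : (Arg × ℕ) × ℕ => x.2) := Primrec.snd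
  have h1 : Primrec (fun x : (Arg × ℕ) × ℕ => letter (dig (2 * x.1.1.2.1 - 1) x.1.1.2.2.2.2.2
      (x.1.1.2.2.2.2.1 + x.1.2 * x.1.1.2.2.2.1 + x.2))) :=
    dig_primrec.comp (ppair aM (ppair ak (padd (padd ao (pmul ai aL)) as)))
  have b3 : Primrec (fun x : Arg × ℕ => x.1.2.2.2) :=
    Primrec.snd.comp (Primrec.snd.comp (Primrec.snd.comp Primrec.fst))
  have h2 : Primrec (fun x : Arg × ℕ => List.range x.1.2.2.2.1) :=
    Primrec.list_range.comp (Primrec.fst.comp b3)
  exact pmap (f := fun x : Arg × ℕ => List.range x.1.2.2.2.1)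
    (g := fun (x : Arg × ℕ) (s : ℕ) => letter (dig (2 * x.1.2.1 - 1) x.1.2.2.2.2.2
      (x.1.2.2.2.2.1 + x.2 * x.1.2.2.2.1 + s))) h2 h1

theorem part1 : Primrec (fun x : Arg => (List.range x.2.1).map
    (fun j => bif decide (x.1.1 ≤ j) then [(j, true)] else ([] : List (ℕ × Bool)))) := by
  have h1 : Primrec (fun x : Arg × ℕ => [(x.2, true)]) := by
    have h2 : Primrec (fun x : Arg × ℕ => ((x.2, true) : ℕ × Bool)) :=
      ppair Primrec.snd (Primrec.const true)
    exact pcons h2 (Primrec.const [])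
  have h3 : Primrec (fun x : Arg × ℕ => decide (x.1.1.1 ≤ x.2)) := by
    refine pble ?_ Primrec.snd
    fun_prop
  have h4 : Primrec (fun x : Arg => List.range x.2.1) := by fun_prop
  exact pmap (f := fun x : Arg => List.range x.2.1)
    (g := fun (x : Arg) (j : ℕ) => bif decide (x.1.1 ≤ j) then [(j, true)] else ([] : List (ℕ × Bool)))
    h4 (pcond h3 h1 (Primrec.const []))

theorem part2 : Primrec (fun x : Arg => (List.range (x.2.1 - x.1.2.length)).map
    (fun _ => ([] : List (ℕ × Bool)))) := by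
  have h4 : Primrec (fun x : Arg => List.range (x.2.1 - x.1.2.length)) := by fun_prop
  exact pmap (f := fun x : Arg => List.range (x.2.1 - x.1.2.length))
    (g := fun (_ : Arg) (_ : ℕ) => ([] : List (ℕ × Bool))) h4 (Primrec.const [])

theorem part3 : Primrec (fun x : Arg => (List.range (x.2.2.1 - x.2.1)).map
    (fun i => (x.2.1 + i, false) :: wd x.2.1 x.2.2.2.1 x.2.2.2.2.1 x.2.2.2.2.2 i)) := by
  have h2 : Primrec (fun x : Arg × ℕ => ((x.1.2.1 + x.2, false) : ℕ × Bool)) := by fun_prop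
  have h4 : Primrec (fun x : Arg => List.range (x.2.2.1 - x.2.1)) := by fun_prop
  exact pmap (f := fun x : Arg => List.range (x.2.2.1 - x.2.1))
    (g := fun (x : Arg) (i : ℕ) => (x.2.1 + i, false) :: wd x.2.1 x.2.2.2.1 x.2.2.2.2.1 x.2.2.2.2.2 i)
    h4 (pcons h2 wd_primrec)

theorem pad_primrec : Primrec (fun x : Arg => pad x.1 x.2.1 x.2.2.1 x.2.2.2.1 x.2.2.2.2.1 x.2.2.2.2.2) := by
  unfold pad
  have h1 : Primrec (fun x : Arg => x.2.2.1) := by fun_prop
  have h2 : Primrec (fun x : Arg => x.1.2) := by fun_prop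
  exact ppair h1 (pappend h2 (pappend part1 (pappend part2 part3)))

attribute [local irreducible] pad size cnt

theorem fam_comp {α : Type*} [Primcodable α] {p : α → Inp} {M N L k : α → ℕ}
    (hp : Computable p) (hM : Computable M) (hN : Computable N) (hL : Computable L)
    (hk : Computable k) : Computable (fun a => fam (p a) (M a) (N a) (L a) (k a)) := by
  have h1 : Primrec (fun x : Inp × ℕ × ℕ × ℕ × ℕ => fam x.1 x.2.1 x.2.2.1 x.2.2.2.1 x.2.2.2.2) := by
    unfold fam
    refine ppair ?_ ?_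
    · refine pad_primrec.comp (f := fun x : Arg => pad x.1 x.2.1 x.2.2.1 x.2.2.2.1 x.2.2.2.2.1 x.2.2.2.2.2)
        (g := fun x : Inp × ℕ × ℕ × ℕ × ℕ => (x.1.1, x.2.1, x.2.2.1, x.2.2.2.1, 0, x.2.2.2.2)) ?_
      fun_prop
    · refine pad_primrec.comp (f := fun x : Arg => pad x.1 x.2.1 x.2.2.1 x.2.2.2.1 x.2.2.2.2.1 x.2.2.2.2.2)
        (g := fun x : Inp × ℕ × ℕ × ℕ × ℕ =>
          (x.1.2, x.2.1, x.2.2.1, x.2.2.2.1, (x.2.2.1 - x.2.1) * x.2.2.2.1, x.2.2.2.2)) ?_
      fun_prop
  exact h1.to_comp.comp (hp.pair (hM.pair (hN.pair (hL.pair hk))))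

theorem seen_comp {α : Type*} [Primcodable α] (c : Code) (b : Bool) {x : α → Inp} {t : α → ℕ}
    (hx : Computable x) (ht : Computable t) : Computable (fun a => seen c (x a) b (t a)) := by
  have h1 : Primrec (fun y : Option ℕ => decide (y = some (encode b))) := by
    have : PrimrecPred (fun y : Option ℕ => y = some (encode b)) :=
      Primrec.eq.comp Primrec.id (Primrec.const _)
    exact this.decide
  have h2 : Computable (fun a => evaln (t a) c (encode (x a))) :=
    Computable.comp (f := fun a : (ℕ × Code) × ℕ => evaln a.1.1 a.1.2 a.2)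
      (g := fun a => ((t a, c), encode (x a))) primrec_evaln.to_comp
      ((ht.pair (Computable.const c)).pair (Computable.encode.comp hx))
  exact h1.to_comp.comp h2

attribute [local irreducible] seen fam

/-- **Self correction for the isomorphism problem.** -/
theorem correct_of_few {C : (G : Type) → [Group G] → Prop}
    (hC : ∀ (G H : Type) [Group G] [Group H], (G ≃* H) → C G → C H) (r : ℕ) {A : Inp →. Bool}
    {K : ℕ × ℕ → ℕ} (hA : Partrec A) (hK : Computable K)
    (h : ∀ n m l : ℕ, (Failures C A n m l).encard ^ (r + 1)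
      ≤ ((K (n, m) * (2 * n) ^ (r * (2 * m * l)) : ℕ) : ℕ∞)) : Solvable C := by
  obtain ⟨c, hc⟩ := exists_code_of hA
  obtain ⟨fM, hfM⟩ : ∃ f : Inp → ℕ, f = fun p => pM r p := ⟨_, rfl⟩
  obtain ⟨fN, hfN⟩ : ∃ f : Inp → ℕ, f = fun p => pN r (fM p) := ⟨_, rfl⟩
  obtain ⟨fK, hfK⟩ : ∃ f : Inp → ℕ, f = fun p => K (fN p, fN p + fM p) := ⟨_, rfl⟩
  obtain ⟨fL, hfL⟩ : ∃ f : Inp → ℕ, f = fun p => pL r (fM p) (fK p) p := ⟨_, rfl⟩
  obtain ⟨fT, hfT⟩ : ∃ f : Inp → ℕ, f = fun p => (2 * fM p) ^ (2 * ((fN p - fM p) * fL p)) := ⟨_, rfl⟩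
  have cM : Computable fM := by
    rw [hfM]
    have h1 : Primrec (fun p : Inp => size p.1 + size p.2) :=
      padd (size_primrec.comp Primrec.fst) (size_primrec.comp Primrec.snd)
    have h2 : Primrec (fun s : ℕ => (2 * r + 2) ^ (r * (2 * r + 3)) + s + 1) := by fun_prop
    refine (h2.comp h1).to_comp.of_eq fun p => ?_
    unfold pM
    omega
  have cN : Computable fN := by
    rw [hfN]
    have h2 : Primrec (fun s : ℕ => pN r s) := by
      unfold pN
      fun_prop
    exact h2.to_comp.comp cM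
  have cK : Computable fK := by
    rw [hfK]
    have h2 : Primrec (fun s : ℕ × ℕ => ((s.1, s.1 + s.2) : ℕ × ℕ)) := by fun_prop
    exact hK.comp (h2.to_comp.comp (cN.pair cM))
  have cL : Computable fL := by
    rw [hfL]
    have h1 : Primrec (fun p : Inp => size p.1 + size p.2) :=
      padd (size_primrec.comp Primrec.fst) (size_primrec.comp Primrec.snd)
    have h2 : Primrec (fun s : ℕ × ℕ × ℕ =>
        2 ^ (r + 1) * s.2.1 * ((2 * pN r s.1) ^ (r * (pN r s.1 + s.1))) ^ 2 + s.2.2) := by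
      unfold pN
      fun_prop
    refine (h2.to_comp.comp (cM.pair (cK.pair h1.to_comp))).of_eq fun p => ?_
    unfold pL
    ring
  have cT : Computable fT := by
    rw [hfT]
    have h2 : Primrec (fun s : ℕ × ℕ × ℕ => (2 * s.1) ^ (2 * ((s.2.1 - s.1) * s.2.2))) := by fun_prop
    exact h2.to_comp.comp (cM.pair (cN.pair cL))
  -- the count
  have cC : ∀ b : Bool, Computable (fun x : Inp × ℕ =>
      cnt (fun k => seen c (fam x.1 (fM x.1) (fN x.1) (fL x.1) k) b x.2) (fT x.1)) := fun b => by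
    refine cnt_comp (f := fun (x : Inp × ℕ) k => seen c (fam x.1 (fM x.1) (fN x.1) (fL x.1) k) b x.2)
      ?_ (cT.comp Computable.fst)
    have c1 : Computable (fun y : (Inp × ℕ) × ℕ => y.1.1) := Computable.fst.comp Computable.fst
    exact seen_comp c b (fam_comp c1 (cM.comp c1) (cN.comp c1) (cL.comp c1) Computable.snd)
      (Computable.snd.comp Computable.fst)
  have cD : ∀ b : Bool, Computable (fun x : Inp × ℕ => decide (fT x.1 + 1 ≤
      2 * cnt (fun k => seen c (fam x.1 (fM x.1) (fN x.1) (fL x.1) k) b x.2) (fT x.1))) := fun b => by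
    have h2 : Primrec (fun s : ℕ × ℕ => decide (s.1 + 1 ≤ 2 * s.2)) := by fun_prop
    exact h2.to_comp.comp ((cT.comp Computable.fst).pair (cC b))
  have cO : Computable (fun x : Inp × ℕ => (decide (fT x.1 + 1 ≤
      2 * cnt (fun k => seen c (fam x.1 (fM x.1) (fN x.1) (fL x.1) k) true x.2) (fT x.1))
      || decide (fT x.1 + 1 ≤
      2 * cnt (fun k => seen c (fam x.1 (fM x.1) (fN x.1) (fL x.1) k) false x.2) (fT x.1)))) :=
    Primrec.or.to_comp.comp (cD true) (cD false)
  refine ⟨fun p => look c (fT p) (fam p (fM p) (fN p) (fL p)), ?_, ?_⟩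
  · unfold look
    refine Partrec.map (Partrec.rfind ?_) (cD true).to₂
    exact Computable.partrec cO
  · intro p c1 c2
    obtain ⟨W, hW, hT, hgood⟩ := few hC c1 c2 (r := r) (M := fM p) (K := fK p) (L := fL p)
      (by rw [hfM]) (by rw [hfL]) (by
        have := h (pN r (fM p)) (pN r (fM p) + fM p) (fL p + 1)
        rw [hfK, hfN]
        exact this)
    have eN : pN r (fM p) = fN p := by rw [hfN]
    rw [eN] at hW hT hgood
    have eT : (2 * fM p) ^ (2 * ((fN p - fM p) * fL p)) = fT p := by rw [hfT]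
    rw [eT] at hW hT hgood
    have s0 : fM p = (2 * r + 2) ^ (r * (2 * r + 3)) + size p.1 + size p.2 + 1 := by rw [hfM]; rfl
    have s1 : size p.1 ≤ fM p := by omega
    have s2 : size p.2 ≤ fM p := by omega
    have s3 : 1 ≤ fM p := by omega
    have s4 : fM p ≤ fN p := by
      rw [hfN]
      exact Nat.le_mul_of_pos_right _ (by omega)
    constructor
    · intro hiso
      refine look_mem hc hW hT fun k hk hkW => ?_
      exact (hgood k hk hkW).1 ((fam_iso p s1 s2 s3 s4 _ k).2 hiso)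
    · intro hiso
      refine look_mem hc hW hT fun k hk hkW => ?_
      exact (hgood k hk hkW).2 (fun h1 => hiso ((fam_iso p s1 s2 s3 s4 _ k).1 h1))

end Pool.Agent.Q134.IS
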