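import Pool.Agent.Q134.IS.Main

/-!
# The isomorphism problem for a class of groups, from most of its presentations

Let `C` be a class of groups which is closed under isomorphisms, for example the class of all
hierarchically hyperbolic groups. There are at least `T = (2 n) ^ (2 m l)` pairs of presentations
with `n` generators and `m` relators of length at most `l`. It is shown that the isomorphism problem
is solvable for `C` as soon as some algorithm, which need not halt, fails on few pairs of
presentations of groups of `C`: on at most `(K (n, m) T ^ (q - 1)) ^ (1 / q)` of them for all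
`n`, `m`, `l`, with a fixed `q` and a computable function `K`.

The reason: a group has many presentations. Generators which are trivial and generators which are
equal to arbitrary words in the other ones are added to both presentations; for many new generators
and long words these presentations are more numerous than the failures, and the answers of the
algorithm for all of them are compared, in parallel.
-/

set_option autoImplicit false

namespace Pool.Agent.Q134.IS.Old

open Pool.Agent.Q134.IS

/-- a presentation from its letters -/
def ofLetters (n m l : ℕ) (f : Fin m → Fin l → Fin n × Bool) : Pres :=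
  (n, List.ofFn fun i => List.ofFn fun j => (((f i j).1 : ℕ), (f i j).2))

lemma ofLetters_inj (n m l : ℕ) : Function.Injective (ofLetters n m l) := by
  intro f g h
  unfold ofLetters at h
  have h1 := List.ofFn_injective (Prod.ext_iff.1 h).2
  funext i j
  have h2 := List.ofFn_injective (congrFun h1 i)
  have h3 := congrFun h2 j
  rw [Prod.mk.injEq] at h3
  exact Prod.ext (Fin.ext h3.1) h3.2

lemma shape_card (n m l : ℕ) : (((2 * n) ^ (m * l) : ℕ) : ℕ∞) ≤ (Shape n m l).encard := by
  have h1 : Set.range (ofLetters n m l) ⊆ Shape n m l := by
    rintro _ ⟨f, rfl⟩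
    refine ⟨rfl, by simp [ofLetters], fun r hr => ?_⟩
    obtain ⟨i, rfl⟩ := (List.mem_ofFn' _ _).1 hr
    refine ⟨by simp, fun x hx => ?_⟩
    obtain ⟨j, rfl⟩ := (List.mem_ofFn' _ _).1 hx
    exact (f i j).1.2
  refine le_trans ?_ (Set.encard_le_encard h1)
  rw [← Set.image_univ, (ofLetters_inj n m l).injOn.encard_image, Set.encard_univ, ENat.card_eq_coe_fintype_card]
  have h2 : Fintype.card (Fin m → Fin l → Fin n × Bool) = (2 * n) ^ (m * l) := by
    simp only [Fintype.card_fun, Fintype.card_fin, Fintype.card_prod, Fintype.card_bool]
    rw [← pow_mul, Nat.mul_comm n 2, Nat.mul_comm l m]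
  rw [h2]

/-- Let `C` be a class of groups closed under isomorphisms. There are at least `(2 n) ^ (m l)`
presentations with `n` generators and `m` relators of length at most `l`. For every `q ≥ 1` the
isomorphism problem is solvable for `C` if and only if there are an algorithm `A` and a computable
function `K` such that for all `n`, `m`, `l` the number `E` of the pairs of such presentations of
groups of `C` on which `A` does not halt with the correct answer satisfies
`E ^ q ≤ K (n, m) (2 n) ^ ((q - 1) (2 m l))`. -/
theorem result (C : (G : Type) → [Group G] → Prop)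
    (hC : ∀ (G H : Type) [Group G] [Group H], (G ≃* H) → C G → C H) :
    (∀ n m l : ℕ, (((2 * n) ^ (m * l) : ℕ) : ℕ∞) ≤ (Shape n m l).encard) ∧
    ∀ q : ℕ, 1 ≤ q → (Solvable C ↔
      ∃ (A : Inp →. Bool) (K : ℕ × ℕ → ℕ), Partrec A ∧ Computable K ∧ ∀ n m l : ℕ,
        (Failures C A n m l).encard ^ q
          ≤ ((K (n, m) * (2 * n) ^ ((q - 1) * (2 * m * l)) : ℕ) : ℕ∞)) := by
  refine ⟨shape_card, fun q hq => ⟨?_, ?_⟩⟩
  · rintro ⟨A, hA, h⟩
    refine ⟨A, fun _ => 0, hA, Computable.const 0, fun n m l => ?_⟩
    have h1 : Failures C A n m l = ∅ := by
      ext p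
      simp only [Failures, Set.mem_ofPred_eq, Set.mem_empty_iff_false, iff_false]
      rintro ⟨-, -, h1, h2, h3⟩
      exact h3 (h p h1 h2)
    rw [h1, Set.encard_empty, zero_pow (by omega)]
    exact zero_le
  · rintro ⟨A, K, hA, hK, h⟩
    obtain ⟨r, rfl⟩ : ∃ r, q = r + 1 := ⟨q - 1, by omega⟩
    exact correct_of_few hC r hA hK h

end Pool.Agent.Q134.IS.Old
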