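import Pool.Agent.Q324.SC.Artin

set_option autoImplicit false

/-!
Finite presentations, and many presentations of the same group.
-/

namespace Pool.Agent.Q134.IS

open Pool.Agent.Q324.SC
open Pool.Agent.Q324.SC.Art (val val_map)

/-- a finite presentation: number of generators and list of the relators; the letter `(i, true)` is
the generator `i`, the letter `(i, false)` its inverse -/
abbrev Pres := ℕ × List (List (ℕ × Bool))

/-- the relations: the relators, and the letters `i` with `i` not less than the number of generators -/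
def rels (P : Pres) : Set (FreeGroup ℕ) :=
  {g | (∃ r ∈ P.2, g = val FreeGroup.of r) ∨ ∃ i, P.1 ≤ i ∧ g = FreeGroup.of i}

/-- the group given by a presentation -/
abbrev Grp (P : Pres) : Type := PresentedGroup (rels P)

/-- the generators -/
def gen (P : Pres) (i : ℕ) : Grp P := PresentedGroup.of i

lemma gen_val (P : Pres) (r : List (ℕ × Bool)) :
    PresentedGroup.mk (rels P) (val FreeGroup.of r) = val (gen P) r :=
  val_map (PresentedGroup.mk (rels P)) FreeGroup.of (gen P) r (fun _ _ => rfl)

lemma gen_rel {P : Pres} {r : List (ℕ × Bool)} (h : r ∈ P.2) : val (gen P) r = 1 := by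
  rw [← gen_val]
  exact PresentedGroup.one_of_mem (Or.inl ⟨r, h, rfl⟩)

lemma gen_one {P : Pres} {i : ℕ} (h : P.1 ≤ i) : gen P i = 1 :=
  PresentedGroup.one_of_mem (rels := rels P) (x := FreeGroup.of i) (Or.inr ⟨i, h, rfl⟩)

lemma exists_hom {P : Pres} {H : Type} [Group H] (h : ℕ → H) (h1 : ∀ r ∈ P.2, val h r = 1)
    (h2 : ∀ i, P.1 ≤ i → h i = 1) : ∃ φ : Grp P →* H, ∀ i, φ (gen P i) = h i := by
  have h3 : ∀ r ∈ rels P, (FreeGroup.lift h) r = 1 := by
    rintro r (⟨r, hr, rfl⟩ | ⟨i, hi, rfl⟩)
    · rw [val_map (FreeGroup.lift h) FreeGroup.of h r (fun _ _ => FreeGroup.lift_apply_of)]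
      exact h1 r hr
    · rw [FreeGroup.lift_apply_of]
      exact h2 i hi
  exact ⟨PresentedGroup.toGroup h3, fun i => PresentedGroup.toGroup.of h3⟩

lemma hom_ext {P : Pres} {H : Type} [Group H] {φ ψ : Grp P →* H}
    (h : ∀ i, φ (gen P i) = ψ (gen P i)) : φ = ψ := PresentedGroup.ext h

lemma val_congr {G : Type} [Group G] {g h : ℕ → G} {w : List (ℕ × Bool)}
    (hw : ∀ x ∈ w, g x.1 = h x.1) : val g w = val h w := by
  have := val_map (MonoidHom.id G) g h w hw
  simpa using this

/-- the letter with number `d` -/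
def letter (d : ℕ) : ℕ × Bool := (d / 2, decide (d % 2 = 1))

lemma letter_inj {a b : ℕ} (h : letter a = letter b) : a = b := by
  unfold letter at h
  rw [Prod.mk.injEq] at h
  have h1 : (a % 2 = 1) ↔ (b % 2 = 1) := by
    have := h.2
    rwa [decide_eq_decide] at this
  omega

/-- the words of the new relators -/
def wd (M L o k i : ℕ) : List (ℕ × Bool) :=
  (List.range L).map fun s => letter (dig (2 * M - 1) k (o + i * L + s))

/-- the padded presentation -/
def pad (P : Pres) (M N L o k : ℕ) : Pres :=
  (N, P.2 ++ ((List.range M).map (fun j => bif decide (P.1 ≤ j) then [(j, true)] else [])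
    ++ ((List.range (M - P.2.length)).map (fun _ => [])
    ++ (List.range (N - M)).map (fun i => (M + i, false) :: wd M L o k i))))

/-- a bound for the letters, the number and the lengths of the relators -/
def size (P : Pres) : ℕ :=
  P.1 + P.2.length + (P.2.map fun r => r.length + (r.map fun x => x.1 + 1).sum).sum

lemma size_fst (P : Pres) : P.1 ≤ size P := by unfold size; omega
lemma size_len (P : Pres) : P.2.length ≤ size P := by unfold size; omega
lemma size_rel {P : Pres} {r : List (ℕ × Bool)} (h : r ∈ P.2) :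
    r.length + (r.map fun x => x.1 + 1).sum ≤ size P := by
  have h1 := List.le_sum_of_mem (List.mem_map_of_mem (f := fun r : List (ℕ × Bool) =>
    r.length + (r.map fun x => x.1 + 1).sum) h)
  unfold size
  exact h1.trans (Nat.le_add_left _ _)
lemma size_letter {P : Pres} {r : List (ℕ × Bool)} (h : r ∈ P.2) {x : ℕ × Bool} (hx : x ∈ r) :
    x.1 < size P := by
  have h1 := size_rel h
  have h2 := List.le_sum_of_mem (List.mem_map_of_mem (f := fun x : ℕ × Bool => x.1 + 1) hx)
  omega

lemma wd_letter {M L o k i : ℕ} (hM : 1 ≤ M) {x : ℕ × Bool} (hx : x ∈ wd M L o k i) : x.1 < M := by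
  unfold wd at hx
  obtain ⟨s, -, rfl⟩ := List.mem_map.1 hx
  have := dig_le (2 * M - 1) k (o + i * L + s)
  change dig (2 * M - 1) k (o + i * L + s) / 2 < M
  omega

/-- the padded presentations give the same group -/
theorem pad_iso (P : Pres) {M N : ℕ} (hM : size P ≤ M) (hM1 : 1 ≤ M) (hN : M ≤ N) (L o k : ℕ) :
    Nonempty (Grp (pad P M N L o k) ≃* Grp P) := by
  obtain ⟨P', hP'⟩ : ∃ P', P' = pad P M N L o k := ⟨_, rfl⟩
  rw [← hP']
  have e1 : P'.1 = N := by rw [hP']; rfl
  have m1 : ∀ r ∈ P.2, r ∈ P'.2 := fun r hr => by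
    rw [hP']
    exact List.mem_append_left _ hr
  have m2 : ∀ j, P.1 ≤ j → j < M → [(j, true)] ∈ P'.2 := fun j hj hjM => by
    rw [hP']
    refine List.mem_append_right _ (List.mem_append_left _ (List.mem_map.2 ⟨j, List.mem_range.2 hjM, ?_⟩))
    rw [decide_eq_true hj]
    rfl
  have m3 : ∀ i, i < N - M → ((M + i, false) :: wd M L o k i) ∈ P'.2 := fun i hi => by
    rw [hP']
    exact List.mem_append_right _ (List.mem_append_right _ (List.mem_append_right _
      (List.mem_map.2 ⟨i, List.mem_range.2 hi, rfl⟩)))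
  have m4 : ∀ r ∈ P'.2, r ∈ P.2 ∨ (∃ j, P.1 ≤ j ∧ j < M ∧ r = [(j, true)]) ∨ r = [] ∨
      ∃ i, i < N - M ∧ r = (M + i, false) :: wd M L o k i := fun r hr => by
    rw [hP'] at hr
    rcases List.mem_append.1 hr with h | h
    · exact Or.inl h
    rcases List.mem_append.1 h with h | h
    · obtain ⟨j, hj, rfl⟩ := List.mem_map.1 h
      by_cases hp : P.1 ≤ j
      · refine Or.inr (Or.inl ⟨j, hp, List.mem_range.1 hj, ?_⟩)
        rw [decide_eq_true hp]
        rfl
      · refine Or.inr (Or.inr (Or.inl ?_))
        rw [decide_eq_false hp]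
        rfl
    rcases List.mem_append.1 h with h | h
    · obtain ⟨j, -, rfl⟩ := List.mem_map.1 h
      exact Or.inr (Or.inr (Or.inl rfl))
    · obtain ⟨i, hi, rfl⟩ := List.mem_map.1 h
      exact Or.inr (Or.inr (Or.inr ⟨i, List.mem_range.1 hi, rfl⟩))
  have hlet : ∀ r ∈ P.2, ∀ x ∈ r, x.1 < M := fun r hr x hx => (size_letter hr hx).trans_le hM
  have hP1 : P.1 ≤ M := (size_fst P).trans hM
  have hone : ∀ j, P.1 ≤ j → j < M → gen P' j = 1 := fun j hj hjM => by
    have := gen_rel (m2 j hj hjM)
    simpa [val] using this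
  have hnew : ∀ i, i < N - M → val (gen P') (wd M L o k i) = gen P' (M + i) := fun i hi => by
    have h1 := gen_rel (m3 i hi)
    have h2 : val (gen P') ((M + i, false) :: wd M L o k i)
        = (gen P' (M + i))⁻¹ * val (gen P') (wd M L o k i) := by simp [val]
    rw [h2, inv_mul_eq_one] at h1
    exact h1.symm
  -- the homomorphism to `Grp P`
  obtain ⟨ψ, hψ⟩ := exists_hom (P := P') (H := Grp P) (fun i => if i < M then gen P i else
      if i < N then val (gen P) (wd M L o k (i - M)) else 1) (by
    intro r hr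
    rcases m4 r hr with h | ⟨j, hj, hjM, rfl⟩ | rfl | ⟨i, hi, rfl⟩
    · rw [val_congr (h := gen P) (fun x hx => by rw [if_pos (hlet r h x hx)])]
      exact gen_rel h
    · simp [val, hjM, gen_one hj]
    · simp [val]
    · have h2 : ∀ g : ℕ → Grp P, val g ((M + i, false) :: wd M L o k i)
          = (g (M + i))⁻¹ * val g (wd M L o k i) := fun g => by simp [val]
      rw [h2, val_congr (h := gen P) (w := wd M L o k i)
        (fun x hx => by rw [if_pos (wd_letter hM1 hx)]), if_neg (by omega), if_pos (by omega),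
        Nat.add_sub_cancel_left, inv_mul_cancel]) (by
    intro i hi
    rw [e1] at hi
    rw [if_neg (by omega), if_neg (by omega)])
  obtain ⟨φ, hφ⟩ := exists_hom (P := P) (H := Grp P') (fun i => if i < M then gen P' i else 1) (by
    intro r hr
    rw [val_congr (h := gen P') (fun x hx => by rw [if_pos (hlet r hr x hx)])]
    exact gen_rel (m1 r hr)) (by
    intro i hi
    by_cases hiM : i < M
    · rw [if_pos hiM, hone i hi hiM]
    · rw [if_neg hiM])
  refine ⟨MonoidHom.toMulEquiv ψ φ (hom_ext fun i => ?_) (hom_ext fun i => ?_)⟩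
  · rw [MonoidHom.comp_apply, MonoidHom.id_apply, hψ]
    by_cases hiM : i < M
    · rw [if_pos hiM, hφ, if_pos hiM]
    · rw [if_neg hiM]
      by_cases hiN : i < N
      · rw [if_pos hiN, val_map φ (gen P) (gen P') _ (fun x hx => by
          rw [hφ, if_pos (wd_letter hM1 hx)]), hnew _ (by omega)]
        congr 1
        omega
      · rw [if_neg hiN, map_one, gen_one (by omega)]
  · rw [MonoidHom.comp_apply, MonoidHom.id_apply, hφ]
    by_cases hiM : i < M
    · rw [if_pos hiM, hψ, if_pos hiM]
    · rw [if_neg hiM, map_one, gen_one (by omega)]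

/-- the presentations with `n` generators and `m` relators of length at most `l` -/
def Shape (n m l : ℕ) : Set Pres :=
  {P | P.1 = n ∧ P.2.length = m ∧ ∀ r ∈ P.2, r.length ≤ l ∧ ∀ x ∈ r, x.1 < n}

lemma pad_shape (P : Pres) {M N L : ℕ} (hM : size P ≤ M) (hM1 : 1 ≤ M) (hN : M ≤ N)
    (hL : size P ≤ L + 1) (o k : ℕ) : pad P M N L o k ∈ Shape N (N + M) (L + 1) := by
  refine ⟨rfl, ?_, ?_⟩
  · have h1 := (size_len P).trans hM
    simp only [pad, List.length_append, List.length_map, List.length_range]
    omega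
  · intro r hr
    rcases List.mem_append.1 hr with h | h
    · refine ⟨?_, fun x hx => ((size_letter h hx).trans_le hM).trans_le hN⟩
      have := size_rel h
      omega
    rcases List.mem_append.1 h with h | h
    · obtain ⟨j, hj, rfl⟩ := List.mem_map.1 h
      rw [List.mem_range] at hj
      cases decide (P.1 ≤ j)
      · exact ⟨by simp, by simp⟩
      · refine ⟨by simp, fun x hx => ?_⟩
        simp only [cond_true, List.mem_singleton] at hx
        rw [hx]
        exact hj.trans_le hN
    rcases List.mem_append.1 h with h | h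
    · obtain ⟨j, -, rfl⟩ := List.mem_map.1 h
      exact ⟨by simp, by simp⟩
    · obtain ⟨i, hi, rfl⟩ := List.mem_map.1 h
      rw [List.mem_range] at hi
      refine ⟨by simp [wd], fun x hx => ?_⟩
      rcases List.mem_cons.1 hx with rfl | hx
      · show M + i < N
        omega
      · exact (wd_letter hM1 hx).trans_le hN

/-- the digits can be read off -/
lemma pad_dig (P : Pres) {M N L o k k' : ℕ} (hM : size P ≤ M) 
    (h : pad P M N L o k = pad P M N L o k') {t : ℕ} (ht : t < (N - M) * L) :
    dig (2 * M - 1) k (o + t) = dig (2 * M - 1) k' (o + t) := by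
  have h1 := (size_len P).trans hM
  unfold pad at h
  have h2 := (List.append_inj (Prod.ext_iff.1 h).2 rfl).2
  have h3 := (List.append_inj h2 rfl).2
  have h4 := (List.append_inj h3 rfl).2
  have hL : 0 < L := by
    rcases Nat.eq_zero_or_pos L with h0 | h0
    · rw [h0] at ht
      omega
    · exact h0
  have hi : t / L < N - M := (Nat.div_lt_iff_lt_mul hL).2 ht
  have h5 := List.map_inj_left.1 h4 (t / L) (List.mem_range.2 hi)
  have h6 : wd M L o k (t / L) = wd M L o k' (t / L) := (List.cons.inj h5).2
  have h7 := List.map_inj_left.1 h6 (t % L) (List.mem_range.2 (Nat.mod_lt _ hL))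
  have h8 := letter_inj h7
  have h9 : o + t / L * L + t % L = o + t := by
    have := Nat.div_add_mod t L
    rw [Nat.mul_comm] at this
    omega
  rw [h9] at h8
  exact h8

end Pool.Agent.Q134.IS
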