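import Pool.Agent.Q134.IS.Pad

set_option autoImplicit false

/-!
Self correction of the isomorphism problem for finite presentations.
-/

namespace Pool.Agent.Q134.IS

open Pool.Agent.Q324.SC
open Encodable

/-- the inputs of the isomorphism problem -/
abbrev Inp := Pres × Pres

/-- the two groups are isomorphic -/
def Iso (p : Inp) : Prop := Nonempty (Grp p.1 ≃* Grp p.2)

/-- `A` halts on `p`, with the correct answer -/
def Correct (A : Inp →. Bool) (p : Inp) : Prop := (Iso p → true ∈ A p) ∧ (¬ Iso p → false ∈ A p)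

/-- the isomorphism problem is solvable for the class `C`: some algorithm halts with the correct
answer on all pairs of presentations of groups of the class -/
def Solvable (C : (G : Type) → [Group G] → Prop) : Prop :=
  ∃ A : Inp →. Bool, Partrec A ∧ ∀ p : Inp, C (Grp p.1) → C (Grp p.2) → Correct A p

/-- the pairs of presentations of groups of the class, with `n` generators and `m` relators of
length at most `l`, on which `A` does not halt or gives the wrong answer -/
def Failures (C : (G : Type) → [Group G] → Prop) (A : Inp →. Bool) (n m l : ℕ) : Set Inp :=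
  {p | p.1 ∈ Shape n m l ∧ p.2 ∈ Shape n m l ∧ C (Grp p.1) ∧ C (Grp p.2) ∧ ¬ Correct A p}

/-! ### parameters -/

def pM (r : ℕ) (p : Inp) : ℕ := (2 * r + 2) ^ (r * (2 * r + 3)) + size p.1 + size p.2 + 1
def pN (r M : ℕ) : ℕ := M * (2 * r + 2)
def pL (r M K : ℕ) (p : Inp) : ℕ :=
  2 ^ (r + 1) * K * ((2 * pN r M) ^ (r * (pN r M + M))) ^ 2 + size p.1 + size p.2

/-- the family of equivalent inputs -/
def fam (p : Inp) (M N L k : ℕ) : Inp := (pad p.1 M N L 0 k, pad p.2 M N L ((N - M) * L) k)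

lemma num {r M K w L : ℕ} (hM : (2 * r + 2) ^ (r * (2 * r + 3)) + 1 ≤ M)
    (hL : 2 ^ (r + 1) * K * ((2 * pN r M) ^ (r * (pN r M + M))) ^ 2 ≤ L)
    (h : w ^ (r + 1) ≤ K * (2 * pN r M) ^ (r * (2 * (pN r M + M) * (L + 1)))) :
    2 * w < (2 * M) ^ (2 * ((pN r M - M) * L)) := by
  obtain ⟨X, hX⟩ : ∃ X, X = (2 * pN r M) ^ (r * (pN r M + M)) := ⟨_, rfl⟩
  obtain ⟨Y, hY⟩ : ∃ Y, Y = (2 * M) ^ ((r + 1) * (pN r M - M)) := ⟨_, rfl⟩
  obtain ⟨e, he⟩ : ∃ e, e = r * (2 * r + 3) := ⟨_, rfl⟩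
  rw [← he] at hM
  rw [← hX] at hL
  have hM1 : 1 ≤ M := by omega
  have hN1 : 1 ≤ pN r M := Nat.mul_pos hM1 (by omega)
  have hX1 : 1 ≤ X := by
    rw [hX]
    exact Nat.one_le_pow _ _ (by omega)
  -- `2 X ≤ Y`
  have hXY : 2 * X ≤ Y := by
    have e1 : r * (pN r M + M) = e * M := by
      rw [he]
      unfold pN
      ring
    have e2 : (r + 1) * (pN r M - M) = (e + 1) * M := by
      have : pN r M - M = M * (2 * r + 1) := by
        unfold pN
        have : M * (2 * r + 2) = M * (2 * r + 1) + M := by ring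
        omega
      rw [this, he]
      ring
    rw [hX, hY, e1, e2, pow_mul, pow_mul]
    obtain ⟨Z, hZ⟩ : ∃ Z, Z = (2 * pN r M) ^ e := ⟨_, rfl⟩
    have h1 : 2 * Z ≤ (2 * M) ^ (e + 1) := by
      have : 2 * pN r M = (2 * M) * (2 * r + 2) := by
        unfold pN
        ring
      rw [hZ, this, mul_pow, pow_succ]
      calc 2 * ((2 * M) ^ e * (2 * r + 2) ^ e) = (2 * M) ^ e * (2 * (2 * r + 2) ^ e) := by ring
        _ ≤ (2 * M) ^ e * (2 * M) := Nat.mul_le_mul_left _ (by omega)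
    rw [← hZ]
    calc 2 * Z ^ M ≤ 2 ^ M * Z ^ M := Nat.mul_le_mul_right _ (by
          calc 2 = 2 ^ 1 := rfl
            _ ≤ 2 ^ M := Nat.pow_le_pow_right (by omega) hM1)
      _ = (2 * Z) ^ M := (mul_pow _ _ _).symm
      _ ≤ _ := Nat.pow_le_pow_left h1 _
  by_contra hc
  push Not at hc
  have h1 : ((2 * M) ^ (2 * ((pN r M - M) * L))) ^ (r + 1) ≤ (2 * w) ^ (r + 1) :=
    Nat.pow_le_pow_left hc _
  have h2 : ((2 * M) ^ (2 * ((pN r M - M) * L))) ^ (r + 1) = Y ^ (2 * L) := by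
    rw [hY, ← pow_mul, ← pow_mul]
    congr 1
    ring
  have h3 : (2 * pN r M) ^ (r * (2 * (pN r M + M) * (L + 1))) = X ^ 2 * X ^ (2 * L) := by
    rw [hX, ← pow_mul, ← pow_mul, ← pow_add]
    congr 1
    ring
  rw [h2, mul_pow] at h1
  rw [h3] at h
  have h4 : (2 * X) ^ (2 * L) ≤ Y ^ (2 * L) := Nat.pow_le_pow_left hXY _
  have h5 : 2 ^ (r + 1) * w ^ (r + 1) ≤ L * X ^ (2 * L) := by
    calc 2 ^ (r + 1) * w ^ (r + 1) ≤ 2 ^ (r + 1) * (K * (X ^ 2 * X ^ (2 * L))) :=
          Nat.mul_le_mul_left _ h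
      _ = 2 ^ (r + 1) * K * X ^ 2 * X ^ (2 * L) := by ring
      _ ≤ _ := Nat.mul_le_mul_right _ hL
  have h6 : L < 2 ^ (2 * L) := by
    calc L < 2 ^ L := Nat.lt_two_pow_self
      _ ≤ 2 ^ (2 * L) := Nat.pow_le_pow_right (by omega) (by omega)
  have h7 : L * X ^ (2 * L) < (2 * X) ^ (2 * L) := by
    rw [mul_pow]
    exact Nat.mul_lt_mul_of_pos_right h6 (by positivity)
  omega

lemma fam_iso (p : Inp) {M N : ℕ} (h1 : size p.1 ≤ M) (h2 : size p.2 ≤ M) (hM1 : 1 ≤ M)
    (hN : M ≤ N) (L k : ℕ) : Iso (fam p M N L k) ↔ Iso p := by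
  obtain ⟨e1⟩ := pad_iso p.1 h1 hM1 hN L 0 k
  obtain ⟨e2⟩ := pad_iso p.2 h2 hM1 hN L ((N - M) * L) k
  constructor
  · rintro ⟨e⟩
    exact ⟨(e1.symm.trans e).trans e2⟩
  · rintro ⟨e⟩
    exact ⟨(e1.trans e).trans e2.symm⟩

lemma fam_inj (p : Inp) {M N L k k' : ℕ} (h1 : size p.1 ≤ M) (h2 : size p.2 ≤ M) (hM1 : 1 ≤ M)
    (hk : k < (2 * M) ^ (2 * ((N - M) * L))) (hk' : k' < (2 * M) ^ (2 * ((N - M) * L)))
    (h : fam p M N L k = fam p M N L k') : k = k' := by
  have e : 2 * M = 2 * M - 1 + 1 := by omega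
  rw [e] at hk hk'
  rw [eq_sum_dig _ _ k hk, eq_sum_dig _ _ k' hk']
  refine Finset.sum_congr rfl fun s hs => ?_
  rw [Finset.mem_range] at hs
  congr 1
  unfold fam at h
  rw [Prod.mk.injEq] at h
  rcases Nat.lt_or_ge s ((N - M) * L) with hs1 | hs1
  · have := pad_dig p.1 h1 h.1 hs1
    rwa [Nat.zero_add] at this
  · have := pad_dig p.2 h2 h.2 (t := s - (N - M) * L) (by omega)
    have e2 : (N - M) * L + (s - (N - M) * L) = s := by omega
    rwa [e2] at this

/-- few members of the family are failures -/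
lemma few {C : (G : Type) → [Group G] → Prop}
    (hC : ∀ (G H : Type) [Group G] [Group H], (G ≃* H) → C G → C H) {A : Inp →. Bool}
    {p : Inp} (c1 : C (Grp p.1)) (c2 : C (Grp p.2)) {r M K L : ℕ} (hM : pM r p ≤ M)
    (hL : pL r M K p ≤ L)
    (h : (Failures C A (pN r M) (pN r M + M) (L + 1)).encard ^ (r + 1)
      ≤ ((K * (2 * pN r M) ^ (r * (2 * (pN r M + M) * (L + 1))) : ℕ) : ℕ∞)) :
    ∃ W : Finset ℕ, W ⊆ Finset.range ((2 * M) ^ (2 * ((pN r M - M) * L))) ∧
      2 * W.card < (2 * M) ^ (2 * ((pN r M - M) * L)) ∧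
      ∀ k ∈ Finset.range ((2 * M) ^ (2 * ((pN r M - M) * L))), k ∉ W →
        Correct A (fam p M (pN r M) L k) := by
  classical
  unfold pM at hM
  unfold pL at hL
  have s1 : size p.1 ≤ M := by omega
  have s2 : size p.2 ≤ M := by omega
  have hM1 : 1 ≤ M := by omega
  have hN : M ≤ pN r M := Nat.le_mul_of_pos_right _ (by omega)
  obtain ⟨T, hT⟩ : ∃ T, T = (2 * M) ^ (2 * ((pN r M - M) * L)) := ⟨_, rfl⟩
  obtain ⟨W, hW⟩ : ∃ W, W = (Finset.range T).filter (fun k => ¬ Correct A (fam p M (pN r M) L k)) :=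
    ⟨_, rfl⟩
  rw [← hT]
  refine ⟨W, by rw [hW]; exact Finset.filter_subset _ _, ?_, fun k hk hkW => ?_⟩
  · rw [hT]
    refine num (K := K) (L := L) (by omega) (by omega) ?_
    have g1 : (W.card : ℕ∞) ≤ (Failures C A (pN r M) (pN r M + M) (L + 1)).encard := by
      rw [← Set.encard_coe_eq_coe_finsetCard]
      have h3 : Set.InjOn (fun k => fam p M (pN r M) L k) (W : Set ℕ) := by
        intro k hk k' hk' hkk
        rw [hW, Finset.mem_coe, Finset.mem_filter, Finset.mem_range] at hk hk'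
        rw [hT] at hk hk'
        exact fam_inj p s1 s2 hM1 hk.1 hk'.1 hkk
      rw [← h3.encard_image]
      refine Set.encard_le_encard ?_
      rintro _ ⟨k, hk, rfl⟩
      rw [hW, Finset.mem_coe, Finset.mem_filter, Finset.mem_range] at hk
      obtain ⟨e1⟩ := pad_iso p.1 s1 hM1 hN L 0 k
      obtain ⟨e2⟩ := pad_iso p.2 s2 hM1 hN L ((pN r M - M) * L) k
      exact ⟨pad_shape p.1 s1 hM1 hN (by omega) _ _, pad_shape p.2 s2 hM1 hN (by omega) _ _,
        hC _ _ e1.symm c1, hC _ _ e2.symm c2, hk.2⟩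
    have g2 : ((W.card : ℕ∞)) ^ (r + 1)
        ≤ ((K * (2 * pN r M) ^ (r * (2 * (pN r M + M) * (L + 1))) : ℕ) : ℕ∞) :=
      (pow_le_pow_left' g1 _).trans h
    exact_mod_cast g2
  · by_contra hc
    exact hkW (by rw [hW, Finset.mem_filter]; exact ⟨hk, hc⟩)

/-! ### the dovetailed vote -/

open Nat.Partrec (Code)
open Nat.Partrec.Code

lemma exists_code_of {A : Inp →. Bool} (hA : Partrec A) :
    ∃ c : Code, ∀ (a : Inp) (b : Bool), encode b ∈ c.eval (encode a) ↔ b ∈ A a := by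
  obtain ⟨c, hc⟩ := exists_code.1 hA
  refine ⟨c, fun a b => ?_⟩
  rw [hc]
  simp only [encodek, Part.coe_some, Part.bind_some, Part.mem_map_iff]
  constructor
  · rintro ⟨b', hb', h⟩
    rwa [← encode_injective h]
  · intro h
    exact ⟨b, h, rfl⟩

/-- the result of the computation after `t` steps is `b` -/
def seen (c : Code) (x : Inp) (b : Bool) (t : ℕ) : Bool :=
  decide (evaln t c (encode x) = some (encode b))

/-- majority vote -/
lemma vote {A : Inp →. Bool} {c : Code}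
    (hc : ∀ (a : Inp) (b : Bool), encode b ∈ c.eval (encode a) ↔ b ∈ A a) {T : ℕ}
    {f : ℕ → Inp} {W : Finset ℕ} (hW : W ⊆ Finset.range T) (hT : 2 * W.card < T) {b : Bool}
    (h : ∀ k ∈ Finset.range T, k ∉ W → b ∈ A (f k)) :
    (∃ t, T < 2 * cnt (fun k => seen c (f k) b t) T) ∧
    ∀ t, ¬ (T < 2 * cnt (fun k => seen c (f k) (!b) t) T) := by
  classical
  constructor
  · have h1 : ∀ k ∈ Finset.range T \ W, ∃ t, encode b ∈ evaln t c (encode (f k)) := by
      intro k hk
      rw [Finset.mem_sdiff] at hk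
      exact evaln_complete.1 ((hc _ _).2 (h k hk.1 hk.2))
    choose! τ hτ using h1
    refine ⟨(Finset.range T \ W).sup τ, ?_⟩
    rw [cnt_eq]
    have h2 : Finset.range T \ W ⊆ (Finset.range T).filter
        (fun k => seen c (f k) b ((Finset.range T \ W).sup τ) = true) := by
      intro k hk
      rw [Finset.mem_filter]
      refine ⟨(Finset.mem_sdiff.1 hk).1, ?_⟩
      unfold seen
      rw [decide_eq_true_eq]
      exact evaln_mono (Finset.le_sup hk) (hτ k hk)
    have h3 := Finset.card_le_card h2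
    rw [Finset.card_sdiff_of_subset hW, Finset.card_range] at h3
    have h4 := Finset.card_le_card hW
    rw [Finset.card_range] at h4
    omega
  · intro t
    rw [cnt_eq]
    have h2 : (Finset.range T).filter (fun k => seen c (f k) (!b) t = true) ⊆ W := by
      intro k hk
      rw [Finset.mem_filter] at hk
      by_contra hkW
      have h3 := h k hk.1 hkW
      have h4 := hk.2
      unfold seen at h4
      rw [decide_eq_true_eq] at h4
      have h5 : (!b) ∈ A (f k) := (hc _ _).1 (evaln_sound h4)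
      have h6 := Part.mem_unique h3 h5
      cases b <;> simp at h6
    have h3 := Finset.card_le_card h2
    omega

/-- the search for a majority -/
def look (c : Code) (T : ℕ) (f : ℕ → Inp) : Part Bool :=
  (Nat.rfind (fun t => (Part.some (decide (T + 1 ≤ 2 * cnt (fun k => seen c (f k) true t) T)
    || decide (T + 1 ≤ 2 * cnt (fun k => seen c (f k) false t) T)) : Part Bool))).map
    (fun t => decide (T + 1 ≤ 2 * cnt (fun k => seen c (f k) true t) T))

lemma look_mem {A : Inp →. Bool} {c : Code}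
    (hc : ∀ (a : Inp) (b : Bool), encode b ∈ c.eval (encode a) ↔ b ∈ A a) {T : ℕ}
    {f : ℕ → Inp} {W : Finset ℕ} (hW : W ⊆ Finset.range T) (hT : 2 * W.card < T) {b : Bool}
    (h : ∀ k ∈ Finset.range T, k ∉ W → b ∈ A (f k)) : b ∈ look c T f := by
  obtain ⟨⟨t, ht⟩, h2⟩ := vote hc hW hT h
  obtain ⟨g, hg⟩ : ∃ g : ℕ → Bool, g = fun t =>
    (decide (T + 1 ≤ 2 * cnt (fun k => seen c (f k) true t) T)
    || decide (T + 1 ≤ 2 * cnt (fun k => seen c (f k) false t) T)) := ⟨_, rfl⟩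
  have h3 : g t = true := by
    rw [hg]
    cases b
    · simp only [Bool.or_eq_true, decide_eq_true_eq]
      exact Or.inr ht
    · simp only [Bool.or_eq_true, decide_eq_true_eq]
      exact Or.inl ht
  obtain ⟨u, hu, -⟩ := Nat.rfind_min' (p := g) h3
  have h4 : g u = true := by
    have := Nat.rfind_spec hu
    simpa using this
  unfold look
  refine Part.mem_map_iff _ |>.2 ⟨u, ?_, ?_⟩
  · rw [hg] at hu
    exact hu
  · rw [hg] at h4
    have h5 := h2 u
    cases b
    · rw [decide_eq_false_iff_not]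
      exact h5
    · simp only [Bool.or_eq_true, decide_eq_true_eq] at h4
      rw [decide_eq_true_eq]
      rcases h4 with h4 | h4
      · exact h4
      · exact absurd h4 h5

end Pool.Agent.Q134.IS
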